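import Pool.Agent.H38.SE.TarB

/-! Module BK of the board `se_modules`: values of names, generic reals. -/

set_option linter.unusedVariables false

open Ordinal Order Set
open scoped ZFSet

namespace SE

open SF

namespace H94

/-- elements of `sq` -/
theorem sq_len (hAF : T_AF) {b : V} (hb : b ∈ sq) : ∃ n : ℕ, Sq n b ∧ dm b = nS n := by
  obtain ⟨n, hn⟩ := (hAF.1 b).1 hb
  exact ⟨n, hn, (hAF.2.2.2.2.1 n b hn).2.2.1⟩

theorem sq_of_dm (hAF : T_AF) {b : V} (hb : b ∈ sq) {n : ℕ} (h : dm b = nS n) : Sq n b := by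
  obtain ⟨m, hm, hd⟩ := sq_len hAF hb
  have h1 : m = n := nS_inj.1 (hd.symm.trans h)
  exact h1 ▸ hm

theorem nS_mem {m n : ℕ} : nS m ∈ nS n ↔ m < n := by
  rw [Ordinal.toZFSet_mem_toZFSet_iff]
  exact Nat.cast_lt

/-- two sequences which occur in a name for the same condition are comparable -/
theorem cmp_name (hAF : T_AF) {L s Y r b b' : V} (hY : Nam L s Y) (hb : b ∈ sq) (hb' : b' ∈ sq)
    (h : ZFSet.pair r b ∈ Y) (h' : ZFSet.pair r b' ∈ Y) : b ⊆ b' ∨ b' ⊆ b := by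
  have key : ∀ {b b' : V} {n m : ℕ}, Sq n b → Sq m b' → n ≤ m → ZFSet.pair r b ∈ Y →
      ZFSet.pair r b' ∈ Y → b ⊆ b' := by
    intro b b' n m hn hm hnm h h'
    obtain ⟨-, -, hd, -, -, -⟩ := hAF.2.2.2.2.1 n b hn
    obtain ⟨-, -, hd', -, hrs', hres'⟩ := hAF.2.2.2.2.1 m b' hm
    obtain ⟨hS, hsub, -⟩ := hres' n hnm
    have h1 : ZFSet.pair r (rs b' (nS n)) ∈ Y := by
      rcases hnm.lt_or_eq with h2 | h2
      · exact hY.ini r b' h' (nS n) (by rw [hd']; exact nS_mem.2 h2)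
      · rw [h2, hrs']
        exact h'
    have h2 : dm (rs b' (nS n)) = nS n := (hAF.2.2.2.2.1 n _ hS).2.2.1
    have h3 : b = rs b' (nS n) := hY.uni r _ _ h h1 (hd.trans h2.symm)
    rw [h3]
    exact hsub
  obtain ⟨n, hn, -⟩ := sq_len hAF hb
  obtain ⟨m, hm, -⟩ := sq_len hAF hb'
  rcases le_total n m with h2 | h2
  · exact Or.inl (key hn hm h2 h h')
  · exact Or.inr (key hm hn h2 h' h)

theorem name_in_N (hAF : T_AF) (hBBa : T_BBa) {N : V → Prop} (k : ZFm N) {P s Y : V}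
    (hP : N P) (hs : N s) (hY : N Y) (n : ℕ) :
    N (P.sep fun q => ∃ b ∈ sq, dm b = nS n ∧ ZFSet.pair (rst s q) b ∈ Y) := by
  have hsq : Tm ZFm (fun _ _ => sq) := hAF.2.2.1
  have hrst : ∀ {f g : (V → Prop) → (ℕ → V) → V}, Tm ZFm f → Tm ZFm g →
      Tm ZFm (fun M v => rst (f M v) (g M v)) := fun hf hg =>
    Tm.at2 (F := fun _ x y => rst x y) hBBa.1 hf hg
  have hR : Dfb ZFm (fun _ v => ∃ b ∈ sq, dm b = nS n ∧ ZFSet.pair (rst (v 2) (v 0)) b ∈ v 3) :=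
    (Dfb.bex (R := fun _ v => dm (v 0) = nS n ∧ ZFSet.pair (rst (v 3) (v 1)) (v 0) ∈ v 4)
      ktr_zfm hsq ((Dfb.eq (Tm.dm (Tm.var 0)) (Tm.nS n)).and
        (Dfb.pairMem (hrst (Tm.var 3) (Tm.var 1)) (Tm.var 0) (Tm.var 4)))).congr
      fun M k v hv => Iff.rfl
  have h1 := (Tm.sep hR (Tm.var 0)).1 N k (cons P (cons s (cons Y fun _ => Y)))
    (((show In N (fun _ => Y) from fun _ => hY).cons hY).cons hs |>.cons hP)
  exact h1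

theorem gen_in_N {N : V → Prop} (k : ZFm N) {P i : V} (hP : N P) (hi : N i) (n : ℕ) :
    N (P.sep fun q => i ∈ dm q ∧ nS n ∈ dm (fst (app q i))) := by
  have hR : Dfb ZFm (fun _ v => v 2 ∈ dm (v 0) ∧ nS n ∈ dm (fst (app (v 0) (v 2)))) :=
    (Dfb.mem (Tm.var 2) (Tm.dm (Tm.var 0))).and
      (Dfb.mem (Tm.nS n) (Tm.dm (Tm.fst (Tm.app (Tm.var 0) (Tm.var 2)))))
  have h1 := (Tm.sep hR (Tm.var 0)).1 N k (cons P (cons i fun _ => i))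
    (((show In N (fun _ => i) from fun _ => hi).cons hi).cons hP)
  exact h1

theorem luz_in_N {N : V → Prop} (k : ZFm N) {P i l : V} (hP : N P) (hi : N i) (hl : N l) :
    N (P.sep fun q => i ∈ dm q ∧ l ∈ snd (app q i)) := by
  have hR : Dfb ZFm (fun _ v => v 2 ∈ dm (v 0) ∧ v 3 ∈ snd (app (v 0) (v 2))) :=
    (Dfb.mem (Tm.var 2) (Tm.dm (Tm.var 0))).and
      (Dfb.mem (Tm.var 3) (Tm.snd (Tm.app (Tm.var 0) (Tm.var 2))))
  have h1 := (Tm.sep hR (Tm.var 0)).1 N k (cons P (cons i (cons l fun _ => l)))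
    (((show In N (fun _ => l) from fun _ => hl).cons hl).cons hi |>.cons hP)
  exact h1

/-- Values of names. -/
theorem val_name (hAF : T_AF) (hAG : T_AG) (hBBa : T_BBa) (hBBb : T_BBb) (hBC : T_BC)
    (hBD : T_BD) (hBI : T_BI) (hBJ : T_BJ) {D : Cx} (hD : D.Ok) {ρ G : V} (hρ : D.N ρ)
    (hc : Cld D.L ρ) (hG : D.Gn ρ G) {s Y : V} (hs : D.N s) (hsρ : s ⊆ ρ) (hT : Tr s)
    (hYN : D.N Y) (hY : Nam D.L s Y) :
    Rl (ev G Y) ∧ D.W G (ev G Y) ∧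
    (∀ b ∈ sq, (b ⊆ ev G Y ↔ ∃ q ∈ G, ZFSet.pair q b ∈ Y)) ∧
    (∀ q ∈ G, ∀ b, ZFSet.pair (rst s q) b ∈ Y → b ⊆ ev G Y) ∧
    (∀ n : ℕ, ∃ q ∈ G, ZFSet.pair q (rs (ev G Y) (nS n)) ∈ Y) ∧
    ∀ s', s ⊆ s' → ev (gs G s') Y = ev G Y := by
  have kN : ZFm D.N := hD.zfc.toZFCm.toZFm
  obtain ⟨hL, -, -, hPR, hJ⟩ := hBJ D hD
  obtain ⟨-, hJG⟩ := hJ ρ hρ hc
  obtain ⟨⟨hZ, hNW, hWG, -, -⟩, ⟨hGP, -, -, hjn, hrG⟩, hgen⟩ := hJG G hG
  have hmem : ∀ q b, ZFSet.pair q b ∈ Y → q ∈ Pos D.L s ∧ b ∈ sq := by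
    intro q b h
    obtain ⟨q', hq', b', hb', he⟩ := hY.sub _ h
    obtain ⟨rfl, rfl⟩ := ZFSet.pair_inj.1 he
    exact ⟨hq', hb'⟩
  have hFF : ∀ {σ p : V}, p ∈ Pos D.L σ → FF p ∧ dm p ⊆ σ := by
    intro σ p hp
    have := (hBC.2.2.2.1 D.L σ p).1 hp
    exact ⟨this.1, this.2.1⟩
  set C : V := sq.sep fun b => ∃ q ∈ G, ZFSet.pair q b ∈ Y with hC
  have hev : ev G Y = (⋃₀ C : ZFSet) := rfl
  have hcomp : ∀ b ∈ C, ∀ c ∈ C, b ⊆ c ∨ c ⊆ b := by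
    intro b hb c hc'
    obtain ⟨hbs, q, hq, hqb⟩ := ZFSet.mem_sep.1 hb
    obtain ⟨hcs, q', hq', hqc⟩ := ZFSet.mem_sep.1 hc'
    obtain ⟨-, hj, hj1, hj2⟩ := hjn q' hq' q hq
    have hjP := hGP hj
    obtain ⟨hr1, -, -⟩ := hBD.2.2.1 D.L ρ s _ hjP fun i hi _ => hT i hi
    have hsub : ∀ {x : V} (hx : x ∈ Pos D.L s), Le (jn q q') x → Le (rst s (jn q q')) x := by
      intro x hx hle
      have h1 := hBD.2.2.2.2.2.1 s x _ (hFF hx).1 (hFF hjP).1 hle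
      rwa [(hBC.2.2.2.2.1 s x (hFF hx).1).2.2.2 (hFF hx).2] at h1
    have h1 := hY.mono q b hqb _ hr1 (hsub (hmem q b hqb).1 hj1)
    have h2 := hY.mono q' c hqc _ hr1 (hsub (hmem q' c hqc).1 hj2)
    exact cmp_name hAF hY hbs hcs h1 h2
  have hunb : ∀ n : ℕ, ∃ (b : V), Sq n b ∧ b ∈ C := by
    intro n
    obtain ⟨r, hr, hrX, -⟩ := hgen _ ∅ (name_in_N hAF hBBa kN (hPR ρ hρ).1 hs hYN n)
      (by
        have := hJG G hG
        exact this.2.1.2.1)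
      (by
        intro q hq _
        obtain ⟨q', hq', hle, hb, -⟩ := (hBI D.L ρ hc).1 s Y q n hsρ hT hY hq
        exact ⟨q', ZFSet.mem_sep.2 ⟨hq', hb⟩, hq', hle⟩)
    obtain ⟨-, b, hb, hdb, hpb⟩ := ZFSet.mem_sep.1 hrX
    exact ⟨b, sq_of_dm hAF hb hdb, ZFSet.mem_sep.2 ⟨hb, _, hrG s hT r hr, hpb⟩⟩
  obtain ⟨hRl, hCsub⟩ := hAG.2.2.2.2.1 C (fun b hb => (ZFSet.mem_sep.1 hb).1) hcomp
    (fun n => by
      obtain ⟨b, hb, hbC⟩ := hunb n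
      exact ⟨n, b, le_rfl, hb, hbC⟩)
  rw [← hev] at hRl hCsub
  have hW : D.W G (ev G Y) :=
    hBBb.2.2.2.2.1.1 (D.W G) hZ.toZFCm.toZFm (cons G (cons Y fun _ => G))
      (((show In (D.W G) (fun _ => G) from fun _ => hWG).cons (hNW Y hYN)).cons hWG)
  have hthird : ∀ b ∈ sq, (b ⊆ ev G Y ↔ ∃ q ∈ G, ZFSet.pair q b ∈ Y) := by
    intro b hb
    constructor
    · intro hsub
      obtain ⟨n, hn, -⟩ := sq_len hAF hb
      obtain ⟨b', hb', hbC⟩ := hunb n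
      have h1 := (hAG.2.1 (ev G Y) n b hRl hn).1 hsub
      have h2 := (hAG.2.1 (ev G Y) n b' hRl hb').1 (hCsub b' hbC)
      have h3 : b = b' := h1.trans h2.symm
      rw [h3]
      exact (ZFSet.mem_sep.1 hbC).2
    · intro h
      exact hCsub b (ZFSet.mem_sep.2 ⟨hb, h⟩)
  refine ⟨hRl, hW, hthird, ?_, ?_, ?_⟩
  · intro q hq b hb
    exact (hthird b (hmem _ b hb).2).2 ⟨_, hrG s hT q hq, hb⟩
  · intro n
    obtain ⟨b', hb', hbC⟩ := hunb n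
    have h2 := (hAG.2.1 (ev G Y) n b' hRl hb').1 (hCsub b' hbC)
    rw [← h2]
    exact (ZFSet.mem_sep.1 hbC).2
  · intro s' hs'
    have h1 : (sq.sep fun b => ∃ q ∈ gs G s', ZFSet.pair q b ∈ Y) = C := by
      ext b
      rw [ZFSet.mem_sep, ZFSet.mem_sep]
      refine and_congr_right fun hb => ?_
      constructor
      · rintro ⟨q, hq, h⟩
        exact ⟨q, (ZFSet.mem_sep.1 hq).1, h⟩
      · rintro ⟨q, hq, h⟩
        exact ⟨q, ZFSet.mem_sep.2 ⟨hq, fun x hx => hs' ((hFF (hmem q b h).1).2 hx)⟩, h⟩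
    rw [hev, ← h1]
    rfl

end H94

open H94 in
theorem pf_BK (hAF : T_AF) (hAG : T_AG) (hBA : T_BA) (hBBa : T_BBa) (hBBb : T_BBb) (hBC : T_BC)
    (hBD : T_BD) (hBE : T_BE) (hBI : T_BI) (hBJ : T_BJ) : T_BK := by
  intro D hD ρ G hρ hc hG
  refine ⟨fun s Y hs hsρ hT hYN hY => val_name hAF hAG hBBa hBBb hBC hBD hBI hBJ hD hρ hc hG hs hsρ
    hT hYN hY, ?_⟩
  intro i hi
  have kN : ZFm D.N := hD.zfc.toZFCm.toZFm
  obtain ⟨hL, -, -, hPR, hJ⟩ := hBJ D hD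
  obtain ⟨-, hJG⟩ := hJ ρ hρ hc
  obtain ⟨⟨hZ, hNW, hWG, -, -⟩, ⟨hGP, hG0, -, hjn, hrG⟩, hgen⟩ := hJG G hG
  have hiN : D.N i := kN.trans ρ hρ i hi
  have hPos : ∀ {p : V}, p ∈ Pos D.L ρ → FF p ∧ dm p ⊆ ρ ∧ ∀ i ∈ dm p, Co D.L p i := by
    intro p hp
    exact (hBC.2.2.2.1 D.L ρ p).1 hp
  set C : V := sq.sep fun b => ∃ p ∈ G, i ∈ dm p ∧ fst (app p i) = b with hC
  have hcg : cg G i = (⋃₀ C : ZFSet) := rfl
  have hCmem : ∀ p ∈ G, i ∈ dm p → fst (app p i) ∈ C := by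
    intro p hp hip
    exact ZFSet.mem_sep.2 ⟨((hPos (hGP hp)).2.2 i hip).s, p, hp, hip, rfl⟩
  have hcomp : ∀ b ∈ C, ∀ c ∈ C, b ⊆ c ∨ c ⊆ b := by
    intro b hb c hc'
    obtain ⟨hbs, q, hq, hiq, rfl⟩ := ZFSet.mem_sep.1 hb
    obtain ⟨hcs, q', hq', hiq', rfl⟩ := ZFSet.mem_sep.1 hc'
    obtain ⟨hcm, -⟩ := hjn q' hq' q hq
    rcases hcm i hiq hiq' with h | h
    · exact Or.inr h.1
    · exact Or.inl h.1
  have hlen : ∀ n : ℕ, ∃ p ∈ G, i ∈ dm p ∧ nS n ∈ dm (fst (app p i)) := by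
    intro n
    obtain ⟨r, hr, hrX, -⟩ := hgen _ ∅ (gen_in_N kN (hPR ρ hρ).1 hiN n) hG0
      (by
        intro q hq _
        obtain ⟨q', hq', hle, hb⟩ := (hBI D.L ρ hc).2.2.1 q {i} n hq
          (by rw [ZFSet.coe_singleton]; exact Set.finite_singleton i)
          (by
            intro x hx
            rw [ZFSet.mem_singleton.1 hx]
            exact hi)
        exact ⟨q', ZFSet.mem_sep.2 ⟨hq', hb i (ZFSet.mem_singleton.2 rfl)⟩, hq', hle⟩)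
    exact ⟨r, hr, (ZFSet.mem_sep.1 hrX).2⟩
  obtain ⟨hRl, hCsub⟩ := hAG.2.2.2.2.1 C (fun b hb => (ZFSet.mem_sep.1 hb).1) hcomp
    (fun n => by
      obtain ⟨p, hp, hip, hnp⟩ := hlen n
      obtain ⟨m, hm, hd⟩ := sq_len hAF ((hPos (hGP hp)).2.2 i hip).s
      rw [hd] at hnp
      exact ⟨m, _, (nS_mem.1 hnp).le, hm, hCmem p hp hip⟩)
  rw [← hcg] at hRl hCsub
  have hW : D.W G (cg G i) :=
    hBBb.2.2.2.2.2.1.1 (D.W G) hZ.toZFCm.toZFm (cons G (cons i fun _ => G))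
      (((show In (D.W G) (fun _ => G) from fun _ => hWG).cons (hNW i hiN)).cons hWG)
  obtain ⟨hSvl, hdmcg, -, -⟩ := hAG.1 (cg G i) hRl
  have happ : ∀ p ∈ G, i ∈ dm p → ∀ n ∈ dm (fst (app p i)),
      app (cg G i) n = app (fst (app p i)) n := by
    intro p hp hip n hn
    obtain ⟨y, hy⟩ := mem_dm.1 hn
    have h1 := hCsub _ (hCmem p hp hip) hy
    obtain ⟨m, hm, hd⟩ := sq_len hAF ((hPos (hGP hp)).2.2 i hip).s
    have hsv : Svl (fst (app p i)) := (hAF.2.2.2.2.1 m _ hm).2.1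
    rw [app_eq hSvl h1, app_eq hsv hy]
  have hsecond : ∀ p ∈ G, i ∈ dm p → fst (app p i) ⊆ cg G i ∧
      ∀ n ∈ om, n ∉ dm (fst (app p i)) → ∀ l ∈ snd (app p i), app (cg G i) n ≠ app l n := by
    intro p hp hip
    refine ⟨hCsub _ (hCmem p hp hip), ?_⟩
    intro n hn hnp l hl
    obtain ⟨k, rfl⟩ := mem_om.1 hn
    obtain ⟨p', hp', hip', hkp'⟩ := hlen k
    obtain ⟨-, hj, hj1, hj2⟩ := hjn p hp p' hp'
    obtain ⟨hir, hq2⟩ := hj2 i hip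
    obtain ⟨-, hq1⟩ := hj1 i hip'
    have hkr : nS k ∈ dm (fst (app (jn p' p) i)) := by
      obtain ⟨y, hy⟩ := mem_dm.1 hkp'
      exact mem_dm.2 ⟨y, hq1.s hy⟩
    rw [happ _ hj hir _ hkr]
    exact hq2.d _ hkr hnp l hl
  refine ⟨hRl, hW, ?_, hsecond, ?_, ?_, ?_⟩
  · intro s hs his
    have h1 : (sq.sep fun b => ∃ p ∈ gs G s, i ∈ dm p ∧ fst (app p i) = b) = C := by
      ext b
      rw [ZFSet.mem_sep, ZFSet.mem_sep]
      refine and_congr_right fun hb => ?_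
      constructor
      · rintro ⟨q, hq, h⟩
        exact ⟨q, (ZFSet.mem_sep.1 hq).1, h⟩
      · rintro ⟨q, hq, hiq, h⟩
        obtain ⟨-, hd, ha, -⟩ := hBC.2.2.2.2.1 s q (hPos (hGP hq)).1
        refine ⟨rst s q, ZFSet.mem_sep.2 ⟨hrG s hs q hq, fun x hx => ((hd x).1 hx).2⟩,
          (hd i).2 ⟨hiq, his⟩, ?_⟩
        rw [ha i his]
        exact h
    rw [hcg, ← h1]
    rfl
  · intro n
    obtain ⟨p, hp, hip, hnp⟩ := hlen n
    exact ⟨p, hp, hip, hnp, happ p hp hip _ hnp⟩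
  · intro n hn
    obtain ⟨k, rfl⟩ := mem_om.1 hn
    obtain ⟨p, hp, hip, hkp⟩ := hlen k
    obtain ⟨b, hb, j, hj, hdb, hap, hpb⟩ := ((hPos (hGP hp)).2.2 i hip).v (nS k) hkp
    refine ⟨j, hj, ?_⟩
    obtain ⟨-, hBA2⟩ := hBA.2.2.2.2.2.2 D.L ρ hc
    obtain ⟨hLab, hsi, hci, -, -⟩ := hBA2.1 i hi
    have hTi : Tr (lS i) := (hBA.2.2.2.2.2.2 D.L (lS i) hci).1
    have hlSN : D.N (lS i) := hBBa.2.2.2.2.1.1 D.N kN (fun _ => i) fun _ => hiN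
    have hlYN : D.N (lY i) := hBBa.2.2.2.2.2.1.1 D.N kN (fun _ => i) fun _ => hiN
    obtain ⟨hR, -, -, h4, -, -⟩ := val_name hAF hAG hBBa hBBb hBC hBD hBI hBJ hD hρ hc hG hlSN hsi
      hTi hlYN hLab.y
    have h5 := h4 p hp b hpb
    have h6 := (hAG.2.1 _ k b hR (sq_of_dm hAF hb hdb)).1 h5
    rw [happ p hp hip _ hkp, hap, ← h6]
  · intro l hl
    obtain ⟨r, hr, hrX, -⟩ := hgen _ ∅ (luz_in_N kN (hPR ρ hρ).1 hiN (kN.trans _ hL l hl)) hG0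
      (by
        intro q hq _
        obtain ⟨q', hq', hle, hb⟩ := (hBI D.L ρ hc).2.2.2 q i l hq hi hl
        exact ⟨q', ZFSet.mem_sep.2 ⟨hq', hb⟩, hq', hle⟩)
    obtain ⟨-, hir, hlr⟩ := ZFSet.mem_sep.1 hrX
    obtain ⟨m, hm, hd⟩ := sq_len hAF ((hPos (hGP hr)).2.2 i hir).s
    refine ⟨nS m, mem_om.2 ⟨m, rfl⟩, ?_⟩
    intro n hn hmn
    refine (hsecond r hr hir).2 n hn ?_ l hlr
    rw [hd]
    intro h
    exact ZFSet.mem_irrefl _ (hmn h)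

end SE
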