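import Pool.Agent.H38.SE.TarB

/-! Module BN of the board `se_modules`: full names of definable reals. -/

set_option linter.unusedVariables false

open Ordinal Order Set
open scoped ZFSet

namespace SE

open SF

namespace H94

theorem bn_sq_len (hAF : T_AF) {b : V} (hb : b ∈ sq) : ∃ n : ℕ, Sq n b ∧ dm b = nS n := by
  obtain ⟨n, hn⟩ := (hAF.1 b).1 hb
  exact ⟨n, hn, (hAF.2.2.2.2.1 n b hn).2.2.1⟩

theorem bn_nS_mem {m n : ℕ} : nS m ∈ nS n ↔ m < n := by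
  rw [Ordinal.toZFSet_mem_toZFSet_iff]
  exact Nat.cast_lt

/-- the renaming of the variables -/
def ren3 : ℕ → ℕ
  | 0 => 0
  | 1 => 1
  | i + 2 => i + 3

theorem ren3_eq (x G b : V) (v : ℕ → V) :
    (fun i => (cons x (cons G (cons b v))) (ren3 i)) = cons x (cons G v) := by
  funext i
  match i with
  | 0 => rfl
  | 1 => rfl
  | i + 2 => rfl

end H94

open H94 in
theorem pf_BN (hAF : T_AF) (hAG : T_AG) (hAI : T_AI) (hBD : T_BD) (hBJ : T_BJ) (hBK : T_BK)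
    (hDS : CAA.T_DS) : T_BN := by
  intro D hD ρ hρ hc
  have kN : ZFm D.N := hD.zfc.toZFCm.toZFm
  obtain ⟨hL, -, -, hPR, hJ⟩ := hBJ D hD
  obtain ⟨hex, hJG⟩ := hJ ρ hρ hc
  have hTρ : Tr ρ := fun i hi => (hc i hi).2
  have hsqT : Tm ZFm (fun _ _ => sq) := hAF.2.2.1
  have hsqN : D.N sq := hsqT.1 D.N kN (fun _ => ρ) fun _ => hρ
  constructor
  · intro Y hYN hY q hq b hb
    constructor
    · intro h G hG hqG
      exact ((hBK D hD ρ G hρ hc hG).1 ρ Y hρ (fun _ h => h) hTρ hYN hY).2.2.1 b hb |>.2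
        ⟨q, hqG, h⟩
    · intro h
      refine hY.ful q hq b hb fun q' hq' hle => ?_
      obtain ⟨G, hG, hq'G⟩ := hex q' hq'
      obtain ⟨-, ⟨hGP, -, hup, hjn, -⟩, -⟩ := hJG G hG
      have hqG : q ∈ G := hup q' hq'G q hq hle
      obtain ⟨q1, hq1, hq1b⟩ := ((hBK D hD ρ G hρ hc hG).1 ρ Y hρ (fun _ h => h) hTρ hYN
        hY).2.2.1 b hb |>.1 (h G hG hqG)
      obtain ⟨-, hj, hj1, hj2⟩ := hjn q' hq'G q1 hq1
      exact ⟨_, hGP hj, hj2, hY.mono q1 b hq1b _ (hGP hj) hj1⟩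
  · intro R hR v hv hx
    have hR' : Dfb ZFm (fun M w => ∃ x, M x ∧ (Rl x ∧
        R M (fun i => (cons x w) (ren3 i)) ∧ w 1 ⊆ x)) := by
      refine (Dfb.ex (R := fun M w => Rl (w 0) ∧ R M (fun i => w (ren3 i)) ∧ w 2 ⊆ w 0)
        ((Dfb.at1 (P := fun _ x => Rl x) hAI.1 (Tm.var 0)).and
          ((hR.rn ren3).and (Dfb.subset (Tm.var 2) (Tm.var 0))))).congr fun M k v hv => Iff.rfl
    obtain ⟨O, hO, hO2⟩ := hDS _ hR'
    have hPo : IsPo (D.P ρ) (D.R ρ) := hBD.2.2.2.2.2.2.2 D.L ρ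
    have hOd : ∀ p q, ZFSet.pair q p ∈ D.R ρ ↔ q ∈ D.P ρ ∧ p ∈ D.P ρ ∧ Le q p :=
      fun p q => hBD.2.2.2.2.2.2.1 D.L ρ p q
    set Ob : V → V := fun b => O D.N (cons (D.P ρ) (cons (D.R ρ) (cons b v))) with hOb
    have hOr : ∀ b ∈ sq, RegO (D.P ρ) (D.R ρ) (Ob b) := fun b hb =>
      (hO2 D.N (D.P ρ) (D.R ρ) (cons b v) kN (hPR ρ hρ).1 (hPR ρ hρ).2 hPo
        (hv.cons (kN.trans _ hsqN b hb))).1
    have hO1 : ∀ b ∈ sq, ∀ G, D.Gn ρ G → ((∃ x, D.W G x ∧ Rl x ∧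
        R (D.W G) (cons x (cons G v)) ∧ b ⊆ x) ↔ ∃ p ∈ G, p ∈ Ob b) := by
      intro b hb G hG
      have h1 := (hO2 D.N (D.P ρ) (D.R ρ) (cons b v) kN (hPR ρ hρ).1 (hPR ρ hρ).2 hPo
        (hv.cons (kN.trans _ hsqN b hb))).2.1 G hG
      simp only [ren3_eq] at h1
      exact h1
    have hO3 : ∀ b ∈ sq, ∀ p ∈ D.P ρ, (p ∈ Ob b ↔ ∀ G, D.Gn ρ G → p ∈ G →
        ∃ x, D.W G x ∧ Rl x ∧ R (D.W G) (cons x (cons G v)) ∧ b ⊆ x) := by
      intro b hb p hp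
      have h1 := (hO2 D.N (D.P ρ) (D.R ρ) (cons b v) kN (hPR ρ hρ).1 (hPR ρ hρ).2 hPo
        (hv.cons (kN.trans _ hsqN b hb))).2.2 hD.ctb p hp
      simp only [ren3_eq] at h1
      exact h1
    -- the real
    have hxG : ∀ G, D.Gn ρ G → ∃ x, Rl x ∧ R (D.W G) (cons x (cons G v)) ∧
        ∀ b, (∃ y, D.W G y ∧ Rl y ∧ R (D.W G) (cons y (cons G v)) ∧ b ⊆ y) ↔ b ⊆ x := by
      intro G hG
      obtain ⟨x, hWx, hRx, hu⟩ := hx G hG
      refine ⟨x, hRx, (hu x hWx hRx).2 rfl, fun b => ⟨?_, fun h => ⟨x, hWx, hRx,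
        (hu x hWx hRx).2 rfl, h⟩⟩⟩
      rintro ⟨y, hy1, hy2, hy3, hy4⟩
      rw [← (hu y hy1 hy2).1 hy3]
      exact hy4
    set Y : V := (ZFSet.prod (D.P ρ) sq).sep fun z => fst z ∈ Ob (snd z) with hYd
    have hYmem : ∀ q b, ZFSet.pair q b ∈ Y ↔ b ∈ sq ∧ q ∈ Ob b := by
      intro q b
      rw [hYd, ZFSet.mem_sep, ZFSet.pair_mem_prod, fst_pair, snd_pair]
      constructor
      · rintro ⟨⟨-, h1⟩, h2⟩
        exact ⟨h1, h2⟩
      · rintro ⟨h1, h2⟩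
        exact ⟨⟨(hOr b h1).1 h2, h1⟩, h2⟩
    have hYN : D.N Y := by
      have h1 : Tm ZFm (fun M w => O M (fun i => (match i with
        | 0 => fun _ w => w 1
        | 1 => fun _ w => w 2
        | 2 => fun _ w => snd (w 0)
        | i + 3 => fun _ w => w (i + 3) : (V → Prop) → (ℕ → V) → V) M w)) := by
        refine hO.comp _ fun i => ?_
        match i with
        | 0 => exact Tm.var 1
        | 1 => exact Tm.var 2
        | 2 => exact Tm.snd (Tm.var 0)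
        | i + 3 => exact Tm.var (i + 3)
      have h2 := (Tm.sep (Dfb.mem (Tm.fst (Tm.var 0)) h1) (Tm.prod (Tm.var 0) hsqT)).1 D.N kN
        (cons (D.P ρ) (cons (D.R ρ) v)) ((hv.cons (hPR ρ hρ).2).cons (hPR ρ hρ).1)
      convert h2 using 1
      rw [hYd]
      ext z
      rw [ZFSet.mem_sep, ZFSet.mem_sep]
      refine and_congr Iff.rfl ?_
      simp only [hOb]
      have e : (cons (D.P ρ) (cons (D.R ρ) (cons (snd z) v))) = (fun i => (match i with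
        | 0 => fun _ w => w 1
        | 1 => fun _ w => w 2
        | 2 => fun _ w => snd (w 0)
        | i + 3 => fun _ w => w (i + 3) : (V → Prop) → (ℕ → V) → V) D.N
          (cons z (cons (D.P ρ) (cons (D.R ρ) v)))) := by
        funext i
        match i with
        | 0 => rfl
        | 1 => rfl
        | 2 => rfl
        | i + 3 => rfl
      rw [e]
      rfl
    have hsqx : ∀ x, Rl x → ∀ n : ℕ, rs x (nS n) ∈ sq ∧ dm (rs x (nS n)) = nS n ∧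
        rs x (nS n) ⊆ x := by
      intro x hx n
      obtain ⟨-, hS, hsub, -⟩ := (hAG.1 x hx).2.2.1 n
      exact ⟨(hAF.1 _).2 ⟨n, hS⟩, (hAF.2.2.2.2.1 n _ hS).2.2.1, hsub⟩
    have hNam : Nam D.L ρ Y := by
      refine ⟨?_, ?_, ?_, ?_, ?_, ?_⟩
      · intro z hz
        obtain ⟨h1, -⟩ := ZFSet.mem_sep.1 hz
        obtain ⟨a, ha, b, hb, he⟩ := ZFSet.mem_prod.1 h1
        exact ⟨a, ha, b, hb, he⟩
      · intro q b hqb q' hq' hle
        obtain ⟨hb, hq⟩ := (hYmem q b).1 hqb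
        exact (hYmem q' b).2 ⟨hb, (hOr b hb).2.1 q hq q' ((hOd q q').2 ⟨hq', (hOr b hb).1 hq, hle⟩)⟩
      · intro n hn q hq
        obtain ⟨k, rfl⟩ := mem_om.1 hn
        obtain ⟨G, hG, hqG⟩ := hex q hq
        obtain ⟨-, ⟨hGP, -, hup, hjn, -⟩, -⟩ := hJG G hG
        obtain ⟨x, hRx, -, hxb⟩ := hxG G hG
        obtain ⟨h1, h2, h3⟩ := hsqx x hRx k
        obtain ⟨p, hp, hpO⟩ := (hO1 _ h1 G hG).1 ((hxb _).2 h3)
        obtain ⟨-, hj, hj1, hj2⟩ := hjn q hqG p hp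
        refine ⟨_, hGP hj, hj2, _, h2, (hYmem _ _).2 ⟨h1, ?_⟩⟩
        exact (hOr _ h1).2.1 p hpO _ ((hOd _ _).2 ⟨hGP hj, (hOr _ h1).1 hpO, hj1⟩)
      · intro q b b' hb hb' hd
        obtain ⟨hbs, hq⟩ := (hYmem q b).1 hb
        obtain ⟨hbs', hq'⟩ := (hYmem q b').1 hb'
        obtain ⟨G, hG, hqG⟩ := hex q ((hOr b hbs).1 hq)
        obtain ⟨x, hRx, -, hxb⟩ := hxG G hG
        have h1 := (hxb b).1 ((hO1 b hbs G hG).2 ⟨q, hqG, hq⟩)
        have h2 := (hxb b').1 ((hO1 b' hbs' G hG).2 ⟨q, hqG, hq'⟩)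
        obtain ⟨n, hn, hdn⟩ := bn_sq_len hAF hbs
        obtain ⟨m, hm, hdm⟩ := bn_sq_len hAF hbs'
        have h3 : n = m := nS_inj.1 (hdn.symm.trans (hd.trans hdm))
        rw [(hAG.2.1 x n b hRx hn).1 h1, (hAG.2.1 x m b' hRx hm).1 h2, h3]
      · intro q b hqb n hn
        obtain ⟨hb, hq⟩ := (hYmem q b).1 hqb
        obtain ⟨m, hm, hdm⟩ := bn_sq_len hAF hb
        rw [hdm] at hn
        have hn' : n ∈ om := by
          obtain ⟨β, hβ, rfl⟩ := Ordinal.mem_toZFSet_iff.1 hn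
          exact Ordinal.mem_toZFSet_iff.2 ⟨β, hβ.trans (Ordinal.natCast_lt_omega0 m), rfl⟩
        obtain ⟨k, rfl⟩ := mem_om.1 hn'
        obtain ⟨hS, hsub, -⟩ := (hAF.2.2.2.2.1 m b hm).2.2.2.2.2 k (bn_nS_mem.1 hn).le
        have hrs : rs b (nS k) ∈ sq := (hAF.1 _).2 ⟨k, hS⟩
        refine (hYmem q _).2 ⟨hrs, (hO3 _ hrs q ((hOr b hb).1 hq)).2 ?_⟩
        intro G hG hqG
        obtain ⟨x, h1, h2, h3, h4⟩ := (hO3 b hb q ((hOr b hb).1 hq)).1 hq G hG hqG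
        exact ⟨x, h1, h2, h3, fun z hz => h4 (hsub hz)⟩
      · intro q hq b hb h
        refine (hYmem q b).2 ⟨hb, (hOr b hb).2.2 q hq ?_⟩
        intro q' hq'
        obtain ⟨hq'P, -, hle⟩ := (hOd q q').1 hq'
        obtain ⟨q'', hq'', hle', hY''⟩ := h q' hq'P hle
        exact ⟨q'', ((hYmem q'' b).1 hY'').2, (hOd q' q'').2 ⟨hq'', hq'P, hle'⟩⟩
    refine ⟨Y, hYN, hNam, fun G hG => ?_⟩
    obtain ⟨x, hRx, hRR, hxb⟩ := hxG G hG
    obtain ⟨hRe, -, hthird, -, -, -⟩ := (hBK D hD ρ G hρ hc hG).1 ρ Y hρ (fun _ h => h) hTρ hYN hNam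
    have hiff : ∀ b ∈ sq, b ⊆ ev G Y ↔ b ⊆ x := by
      intro b hb
      rw [hthird b hb, ← hxb b, hO1 b hb G hG]
      constructor
      · rintro ⟨q, hq, h⟩
        exact ⟨q, hq, ((hYmem q b).1 h).2⟩
      · rintro ⟨q, hq, h⟩
        exact ⟨q, hq, (hYmem q b).2 ⟨hb, h⟩⟩
    have he : ev G Y = x := by
      refine hAG.2.2.2.1 _ _ hRe hRx fun n => ⟨n, le_rfl, ?_⟩
      obtain ⟨h1, h2, h3⟩ := hsqx x hRx n
      obtain ⟨m, hm, hdm⟩ := bn_sq_len hAF h1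
      have h4 : m = n := nS_inj.1 (hdm.symm.trans h2)
      subst h4
      exact ((hAG.2.1 _ m _ hRe hm).1 ((hiff _ h1).2 h3)).symm
    rw [he]
    exact hRR

end SE
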