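import Pool.Agent.H38.SE.TarZ

/-! Module ZA of the board `se_modules`: the set of all legal labels. -/

set_option linter.unusedVariables false

open Ordinal Order Set
open scoped ZFSet

namespace SE

open SF

namespace H94

/-- the second component of a pair of reals -/
theorem za_snd (hAG : T_AG) (hAH : T_AH) {M : V → Prop} (k : ZFm M) {z c : V} (hz : Rl z)
    (hc : Rl c) (h : M (prl z c)) : M c := by
  have h1 : Tm ZFm (fun _ v => resS om fun n => snd (app (v 0) n)) :=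
    Tm.resS Tm.om (Tm.snd (Tm.app (Tm.var 1) (Tm.var 0)))
  have h2 : M (resS om fun n => snd (app (prl z c) n)) := h1.1 M k (fun _ => prl z c) fun _ => h
  have hv : ∀ n : ℕ, snd (app (prl z c) (nS n)) = app c (nS n) := by
    intro n
    rw [(hAH.1 z c hz hc).2 n, snd_pair]
  have h3 : resS om (fun n => snd (app (prl z c) n)) = c := by
    obtain ⟨h4, h5⟩ := hAG.2.2.2.2.2 (fun n => snd (app (prl z c) n)) fun n => by
      rw [hv n]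
      exact ((hAG.1 c hc).2.2.1 n).1
    refine hAG.2.2.1 _ _ h4 hc fun n => ?_
    rw [h5 n, hv n]
  rwa [h3] at h2

end H94

open H94 in
theorem pf_ZA (hAG : T_AG) (hAH : T_AH) (hBA : T_BA) (hBBa : T_BBa) (hBJ : T_BJ) (hBK : T_BK)
    (hBL : T_BL) (hBP : T_BP) (hBR : T_BR) (hBS : T_BS) : T_ZA := by
  intro D hF
  have hD := hF.ok
  have kN : ZFm D.N := hD.zfc.toZFCm.toZFm
  obtain ⟨-, hHt, hHN, hPR, hJ⟩ := hBJ D hD
  have hLH : D.Lam ⊆ D.H := fun i hi => (ZFSet.mem_sep.1 hi).1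
  have hLeg : ∀ i ∈ D.Lam, D.Leg i := fun i hi => (ZFSet.mem_sep.1 hi).2.1
  have hcl : ∀ i, D.Leg i → lS i ⊆ D.Lam → i ∈ D.Lam := fun i hi hs =>
    ZFSet.mem_sep.2 ⟨hi.h, hi, fun j hj => hLeg j (hs hj)⟩
  have hC : Cld D.L D.Lam := by
    intro i hi
    obtain ⟨-, h1, h2⟩ := ZFSet.mem_sep.1 hi
    refine ⟨h1.l, fun j hj => ?_⟩
    exact ZFSet.mem_sep.2 ⟨(h2 j hj).h, h2 j hj, fun m hm => h2 m (h1.l.tr j hj hm)⟩
  obtain ⟨hTL, hBA2, hBA3⟩ := hBA.2.2.2.2.2.2 D.L D.Lam hC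
  refine ⟨hLH, hC, hLeg, hcl, fun G hG => ?_⟩
  have hLN := hF.lam
  have hBKG := hBK D hD D.Lam G hLN hC hG
  obtain ⟨hgsL, hBLG⟩ := hBL D hD D.Lam G hLN hC hG
  -- facts on one label
  have hlab : ∀ i ∈ D.Lam, D.N (lS i) ∧ lS i ⊆ D.Lam ∧ Tr (lS i) ∧
      (∀ s', lS i ⊆ s' → ev (gs G s') (lY i) = ev G (lY i) ∧ ev (gs G s') (lZ i) = ev G (lZ i) ∧
        ev (gs G s') (lA i) = ev G (lA i) ∧ ev (gs G s') (lB i) = ev G (lB i)) ∧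
      Rl (ev G (lZ i)) ∧ D.N (lY i) := by
    intro i hi
    obtain ⟨hLab, hsi, hci, hci', hsi'⟩ := hBA2 i hi
    have hiN : D.N i := hHN i (hLH hi)
    have hT : Tr (lS i) := (hBA.2.2.2.2.2.2 D.L _ hci).1
    have hSN : D.N (lS i) := hBBa.2.2.2.2.1.1 D.N kN (fun _ => i) fun _ => hiN
    have hYN : D.N (lY i) := hBBa.2.2.2.2.2.1.1 D.N kN (fun _ => i) fun _ => hiN
    have hZN : D.N (lZ i) := hBBa.2.2.2.2.2.2.1.1 D.N kN (fun _ => i) fun _ => hiN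
    have hAN : D.N (lA i) := hBBa.2.2.2.2.2.2.2.1.1 D.N kN (fun _ => i) fun _ => hiN
    have hBN : D.N (lB i) := hBBa.2.2.2.2.2.2.2.2.1.1 D.N kN (fun _ => i) fun _ => hiN
    refine ⟨hSN, hsi, hT, fun s' hs' => ⟨?_, ?_, ?_, ?_⟩, ?_, hYN⟩
    · exact (hBKG.1 _ _ hSN hsi hT hYN hLab.y).2.2.2.2.2 s' hs'
    · exact (hBKG.1 _ _ hSN hsi hT hZN hLab.z).2.2.2.2.2 s' hs'
    · exact (hBKG.1 _ _ hSN hsi hT hAN hLab.a).2.2.2.2.2 s' hs'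
    · exact (hBKG.1 _ _ hSN hsi hT hBN hLab.b).2.2.2.2.2 s' hs'
    · exact (hBKG.1 _ _ hSN hsi hT hZN hLab.z).1
  have hcg : ∀ s, Tr s → s ⊆ D.Lam → ∀ i ∈ s, cg (gs G s) i = cg G i := fun s hT hs i hi =>
    (hBKG.2 i (hs hi)).2.2.1 s hT hi
  have hP2 : ∀ i ∈ D.Lam, ¬ Pro D.Lam G (ev G (lY i)) := by
    rintro i hi ⟨j, hj, hz, he⟩
    obtain ⟨hSN, hsi, hT, hev, -, hYN⟩ := hlab i hi
    obtain ⟨hLab, -, hci, -, -⟩ := hBA2 i hi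
    obtain ⟨hGi, -⟩ := hBLG _ hSN hsi hT
    by_cases hji : j ∈ lS i
    · refine (hLeg i hi).y _ hGi ⟨j, hji, ?_, ?_⟩
      · rw [((hlab j hj).2.2.2.1 (lS i) (hT j hji)).2.1]
        exact hz
      · rw [((hlab j hj).2.2.2.1 (lS i) (hT j hji)).2.1, hcg _ hT hsi j hji,
          (hev _ (fun _ h => h)).1]
        exact he
    · have hW : D.W (gs G (lS i)) (ev (gs G (lS i)) (lY i)) :=
        ((hBK D hD _ _ hSN hci hGi).1 (lS i) (lY i) hSN (fun _ h => h) hT hYN hLab.y).2.1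
      rw [(hev _ (fun _ h => h)).1, he] at hW
      obtain ⟨-, hJi⟩ := hJ _ hSN hci
      have kW : ZFm (D.W (gs G (lS i))) := (hJi _ hGi).1.1.toZFCm.toZFm
      have h1 := za_snd hAG hAH kW (hlab j hj).2.2.2.2.1 (hBKG.2 j hj).1 hW
      exact hBP D hD D.Lam G (lS i) j hLN hC hG hSN hsi hT hj hji h1
  have hPs : ∀ s, s ⊆ D.Lam → Tr s → ∀ x, Pro s (gs G s) x → Pro D.Lam G x := by
    rintro s hs hT x ⟨j, hj, hz, he⟩
    rw [((hlab j (hs hj)).2.2.2.1 s (hT j hj)).2.1] at hz he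
    rw [hcg s hT hs j hj] at he
    exact ⟨j, hs hj, hz, he⟩
  have hSt : ∀ s ∈ D.H, s ⊆ D.Lam → Tr s → D.St s (gs G s) := fun s hsH hs hT =>
    ⟨hsH, hBA3 s hs hT, (hBLG s (hHN s hsH) hs hT).1⟩
  have hun : ∀ s ∈ D.H, s ⊆ D.Lam → Tr s → ∀ s1 ∈ D.H, s1 ⊆ D.Lam → Tr s1 →
      s ∪ s1 ∈ D.H ∧ s ∪ s1 ⊆ D.Lam ∧ Tr (s ∪ s1) := by
    intro s hsH hs hT s1 hs1H hs1 hT1
    refine ⟨((hBR D hD).2.2.2.1 s hsH s1 hs1H).2.1, ?_, ?_⟩
    · intro x hx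
      rcases ZFSet.mem_union.1 hx with h | h
      · exact hs h
      · exact hs1 h
    · intro x hx y hy
      rcases ZFSet.mem_union.1 hx with h | h
      · exact ZFSet.mem_union.2 (Or.inl (hT x h hy))
      · exact ZFSet.mem_union.2 (Or.inr (hT1 x h hy))
  refine ⟨fun s hsH hs hT => ⟨hSt s hsH hs hT, ?_, hPs s hs hT, ?_, ?_, ?_⟩, hP2, ?_⟩
  · intro s' hs'
    refine ⟨?_, ?_⟩
    · intro i hi hp
      rw [((hlab i (hs hi)).2.2.2.1 s (hT i hi)).1] at hp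
      exact hP2 i (hs hi) (hPs s hs hT _ hp)
    · intro k hk i hi hki
      obtain ⟨hSN, hsi, hTi, -, -, -⟩ := hlab i (hs hi)
      obtain ⟨hGi, -⟩ := hBLG _ hSN hsi hTi
      have hL := hLeg i (hs hi)
      obtain ⟨p, hp, hpT⟩ := (hF.tab.ob k i _ hL.h hL.l hL.c hki hGi).2 (hL.o _ hGi k hki)
      obtain ⟨h1, h2⟩ := ZFSet.mem_sep.1 hp
      exact ⟨p, ZFSet.mem_sep.2 ⟨h1, fun x hx => hT i hi (h2 hx)⟩, hpT⟩
  · exact (hBLG s (hHN s hsH) hs hT).2.2.1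
  · intro i hi
    exact ⟨hcg s hT hs i hi, (hlab i (hs hi)).2.2.2.1 s (hT i hi)⟩
  · intro s' hs'H hss' hs' hT'
    exact ⟨hSt s' hs'H hs' hT', hss', (hBLG s' (hHN s' hs'H) hs' hT').2.2.2.2.2.2 s hss'⟩
  · intro s hsH hs hT
    refine ⟨?_, ?_, hun s hsH hs hT⟩
    · intro y hy hRy
      obtain ⟨s0, hs0H, hs0, hs0C, hWy⟩ := (hBS D hD D.Lam G hLN hC hLH hG).1 y hy hRy
      have hT0 : Tr s0 := (hBA.2.2.2.2.2.2 D.L _ hs0C).1
      obtain ⟨h1, h2, h3⟩ := hun s hsH hs hT s0 hs0H hs0 hT0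
      refine ⟨s ∪ s0, h1, fun x hx => ZFSet.mem_union.2 (Or.inl hx), h2, h3, ?_⟩
      have h4 := hSt _ h1 h2 h3
      have h5 : s0 ⊆ s ∪ s0 := fun x hx => ZFSet.mem_union.2 (Or.inr hx)
      have h6 := ((hBL D hD _ _ (hHN _ h1) h4.c h4.g).2 s0 (hHN _ hs0H) h5 hT0).2.2.1 y
      rw [(hBLG _ (hHN _ h1) h2 h3).2.2.2.2.2.2 s0 h5] at h6
      exact h6 hWy
    · intro i hi
      have kH : ZFm (· ∈ D.H) := hD.zfH
      have hiH := hLH hi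
      have hSH : lS i ∈ D.H := hBBa.2.2.2.2.1.1 (· ∈ D.H) kH (fun _ => i) fun _ => hiH
      obtain ⟨hLab, hsi, hci, hci', hsi'⟩ := hBA2 i hi
      have hiH' : insert i (lS i) ∈ D.H := ((hBR D hD).2.2.2.1 i hiH _ hSH).2.2
      have hT0 : Tr (insert i (lS i)) := (hBA.2.2.2.2.2.2 D.L _ hci').1
      obtain ⟨h1, h2, h3⟩ := hun s hsH hs hT _ hiH' hsi' hT0
      exact ⟨_, h1, fun x hx => ZFSet.mem_union.2 (Or.inl hx),
        ZFSet.mem_union.2 (Or.inr (ZFSet.mem_insert i (lS i))), h2, h3⟩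

end SE
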