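import Pool.Agent.H38.SE.TarZ

/-! Module ZF of the board `se_modules`: the promised reals are definable. -/

set_option linter.unusedVariables false

open Ordinal Order Set
open scoped ZFSet

namespace SE

open SF

theorem pf_ZF (hAG : T_AG) (hAH : T_AH) (hAI : T_AI) (hBA : T_BA) (hBBa : T_BBa) (hBBb : T_BBb) (hBD : T_BD)
    (hBJ : T_BJ) (hBK : T_BK) (hBL : T_BL) (hBO : T_BO) (hBR : T_BR) (hCC : T_CC) (hSA : T_SA)
    (hZA : T_ZA) (hZB : T_ZB) (hDS : CAA.T_DS) : T_ZF := by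
  intro D hF G hG z hzW hz hz0
  have hD := hF.ok
  have kN : ZFm D.N := hD.zfc.toZFCm.toZFm
  obtain ⟨-, hHt, hHN, hPR, hJ⟩ := hBJ D hD
  obtain ⟨hLH, hC, hLeg, hcl, hGZ⟩ := hZA D hF
  obtain ⟨hS, hP2, hE⟩ := hGZ G hG
  have hLN := hF.lam
  have hBKG := hBK D hD D.Lam G hLN hC hG
  have kW : ZFm (D.W G) := ((hJ _ hLN hC).2 G hG).1.1.toZFCm.toZFm
  have hprl : ∀ {M : V → Prop}, ZFm M → ∀ {x y : V}, M x → M y → M (prl x y) := by
    intro M k x y hx hy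
    exact hAI.2.2.1.1 M k (cons x (cons y fun _ => x))
      (((show In M (fun _ => x) from fun _ => hx).cons hy).cons hx)
  constructor
  · rintro ⟨a, haW, ha, hCod⟩
    by_contra hno
    apply hCod
    -- a common support
    have hemH : (∅ : V) ∈ D.H := by
      have := (hBR D hD).2.2.2.2.2.2.2.2.2 0
      rwa [nS_zero] at this
    have hTe : Tr (∅ : V) := fun i hi => absurd hi (ZFSet.notMem_empty i)
    obtain ⟨s1, hs1H, -, hs1, hT1, hW1⟩ := (hE ∅ hemH (ZFSet.empty_subset _) hTe).1 z hzW hz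
    obtain ⟨s, hsH, hs1s, hs, hT, hWa⟩ := (hE s1 hs1H hs1 hT1).1 a haW ha
    obtain ⟨hSt1, -, -, -, -, hEx1⟩ := hS s1 hs1H hs1 hT1
    obtain ⟨hSt, -, -, -, hev, -⟩ := hS s hsH hs hT
    have hWz : D.W (gs G s) z :=
      ((hSA D hD s1 _ hSt1).2.2.2.2 s _ (hEx1 s hsH hs1s hs hT)).2.2.1 z hW1
    have hsN : D.N s := hHN s hsH
    have hCs : Cld D.L s := hSt.c
    have hGs : D.Gn s (gs G s) := hSt.g
    have kWs : ZFm (D.W (gs G s)) := ((hJ _ hsN hCs).2 _ hGs).1.1.toZFCm.toZFm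
    have hRp : Rl (prl z a) := (hAH.1 z a hz ha).1
    obtain ⟨τ, hτ, hτe⟩ := hprl kWs hWz hWa
    obtain ⟨hBO1, hBO2, -, hBO4, -, -⟩ := hBO D hD s hsN hCs
    obtain ⟨Y1, hY1N, hY1, hY1v⟩ := hBO1 τ hτ
    have hY1e : ev (gs G s) Y1 = prl z a := by
      rw [(hY1v _ hGs).1 (by rw [← hτe]; exact hRp), hτe]
    -- the property is decided
    have hR : Dfb ZFm (fun _ v => Pro (v 1) (v 0) (ev (v 0) (v 2))) :=
      Dfb.at3 (P := fun _ x y z => Pro x y z) hBBb.2.2.2.2.2.2.2.1 (Tm.var 1) (Tm.var 0)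
        (Tm.at2 (F := fun _ x y => ev x y) hBBb.2.2.2.2.1 (Tm.var 0) (Tm.var 2))
    obtain ⟨O, hO, hO2⟩ := hDS _ hR
    have hPo : IsPo (D.P s) (D.R s) := hBD.2.2.2.2.2.2.2 D.L s
    have hvI : In D.N (cons s (cons Y1 fun _ => s)) :=
      ((show In D.N (fun _ => s) from fun _ => hsN).cons hY1N).cons hsN
    set O0 : V := O D.N (cons (D.P s) (cons (D.R s) (cons s (cons Y1 fun _ => s)))) with hO0
    have hO0N : D.N O0 := hO.1 D.N kN _ ((hvI.cons (hPR s hsN).2).cons (hPR s hsN).1)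
    have hdec : ∀ G', D.Gn s G' → (Pro s G' (ev G' Y1) ↔ ∃ p ∈ G', p ∈ O0) := fun G' hG' =>
      (hO2 D.N (D.P s) (D.R s) _ kN (hPR s hsN).1 (hPR s hsN).2 hPo hvI).2.1 G' hG'
    obtain ⟨hk0N, hk0, hk0v⟩ := hBO4 0
    obtain ⟨Y, hYN, hY, hYv⟩ := hBO2 (knm D.L s 0) Y1 O0 hk0N hY1N hO0N hk0 hY1
    have hnp : ∀ G', D.Gn s G' → ¬ Pro s G' (ev G' Y) := by
      intro G' hG' hp
      by_cases h : ∃ p ∈ G', p ∈ O0
      · rw [(hYv G' hG').1 h, hk0v G' hG'] at hp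
        obtain ⟨j, hj, -, he⟩ := hp
        have hBKs := hBK D hD s G' hsN hCs hG'
        have hLj : Lab D.L j := (hCs j hj).1
        have hjs : lS j ⊆ s := (hCs j hj).2
        obtain ⟨h1, -⟩ := hBKs.2 j hj
        have hjN : D.N j := kN.trans s hsN j hj
        have hTj : Tr (lS j) := fun i hi => hLj.tr i hi
        have hSN : D.N (lS j) := hBBa.2.2.2.2.1.1 D.N kN (fun _ => j) fun _ => hjN
        have hZN : D.N (lZ j) := hBBa.2.2.2.2.2.2.1.1 D.N kN (fun _ => j) fun _ => hjN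
        have hZj : Rl (ev G' (lZ j)) := (hBKs.1 _ _ hSN hjs hTj hZN hLj.z).1
        exact hAH.2.2.2.2.2 _ _ hZj h1 he.symm
      · rw [(hYv G' hG').2 h] at hp
        exact h ((hdec G' hG').1 hp)
    have hmem : lab (nS 0) ∅ s Y (knm D.L s 0) (knm D.L s 0) (knm D.L s 0) ∈ D.Lam :=
      hZB D hF 0 s Y _ _ _ (by norm_num) hsH hs hT hYN hk0N hk0N hk0N hY hk0 hk0 hk0 hnp
        (Or.inr fun G' hG' => hk0v G' hG')
    have hnps : ¬ ∃ p ∈ gs G s, p ∈ O0 := by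
      intro h
      obtain ⟨j, hj, hjz, he⟩ := (hdec _ hGs).2 h
      rw [hY1e] at he
      have hBKs := hBK D hD s _ hsN hCs hGs
      have hLj : Lab D.L j := (hCs j hj).1
      have hjs : lS j ⊆ s := (hCs j hj).2
      obtain ⟨h1, -⟩ := hBKs.2 j hj
      have hjN : D.N j := kN.trans s hsN j hj
      have hTj : Tr (lS j) := fun i hi => hLj.tr i hi
      have hSN : D.N (lS j) := hBBa.2.2.2.2.1.1 D.N kN (fun _ => j) fun _ => hjN
      have hZN : D.N (lZ j) := hBBa.2.2.2.2.2.2.1.1 D.N kN (fun _ => j) fun _ => hjN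
      have hZj : Rl (ev (gs G s) (lZ j)) := (hBKs.1 _ _ hSN hjs hTj hZN hLj.z).1
      have h2 := (hAH.2.1 _ _ _ _ hz ha hZj h1 he).1
      exact hno ⟨j, hs hj, by rw [← (hev j hj).2.2.1, ← h2]⟩
    have hval : ev G Y = prl z a := by
      rw [← (hBKG.1 s Y hsN hs hT hYN hY).2.2.2.2.2 s (fun _ h => h), (hYv _ hGs).2 hnps, hY1e]
    have hlY : lY (lab (nS 0) ∅ s Y (knm D.L s 0) (knm D.L s 0) (knm D.L s 0)) = Y :=
      (hBA.1 (nS 0) ∅ s Y (knm D.L s 0) (knm D.L s 0) (knm D.L s 0)).2.2.2.1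
    refine (hCC D hD D.Lam G hLN hC hG (prl z a) (hprl kW hzW haW) hRp).2 ⟨_, hmem, ?_⟩
    rw [hlY, hval]
  · rintro ⟨i, hi, hiz⟩
    obtain ⟨hRc, hWc, -⟩ := hBKG.2 i hi
    refine ⟨cg G i, hWc, hRc, fun hCod => ?_⟩
    obtain ⟨j, hj, hje⟩ := (hCC D hD D.Lam G hLN hC hG (prl z (cg G i)) (hprl kW hzW hWc)
      (hAH.1 z _ hz hRc).1).1 hCod
    exact hP2 j hj ⟨i, hi, by rw [hiz]; exact hz0, by rw [← hje, hiz]⟩

end SE
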