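import Pool.Agent.H38.SE.TarZ

/-! Module ZX of the board `se_modules`: decided properties. -/

set_option linter.unusedVariables false

open Ordinal Order Set
open scoped ZFSet

namespace SE

open SF

namespace H94

theorem zx_le {hBBa : T_BBa} {f g : (V → Prop) → (ℕ → V) → V} (hf : Tm ZFm f) (hg : Tm ZFm g) :
    Dfb ZFm (fun M v => Le (f M v) (g M v)) :=
  Dfb.at2 (P := fun _ x y => Le x y) hBBa.2.2.2.2.2.2.2.2.2.2.2.1 hf hg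

/-- the conditions which are below an element of `O` -/
theorem zx_bel (hBBa : T_BBa) {N : V → Prop} (k : ZFm N) {P O O2 : V} (hP : N P) (hO : N O)
    (hO2 : N O2) :
    N (P.sep fun p => (∃ q ∈ O, q ∈ P ∧ Le p q) ∧ ∃ q ∈ O2, q ∈ P ∧ Le p q) := by
  have h1 : Dfb ZFm (fun _ v => ∃ q ∈ v 2, q ∈ v 1 ∧ Le (v 0) q) :=
    (Dfb.bex (R := fun _ v => v 0 ∈ v 2 ∧ Le (v 1) (v 0)) ktr_zfm (Tm.var 2)
      ((Dfb.mem (Tm.var 0) (Tm.var 2)).and (zx_le (hBBa := hBBa) (Tm.var 1) (Tm.var 0)))).congr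
      fun M k v hv => Iff.rfl
  have h2 : Dfb ZFm (fun _ v => ∃ q ∈ v 3, q ∈ v 1 ∧ Le (v 0) q) :=
    (Dfb.bex (R := fun _ v => v 0 ∈ v 2 ∧ Le (v 1) (v 0)) ktr_zfm (Tm.var 3)
      ((Dfb.mem (Tm.var 0) (Tm.var 2)).and (zx_le (hBBa := hBBa) (Tm.var 1) (Tm.var 0)))).congr
      fun M k v hv => Iff.rfl
  exact (Tm.sep (h1.and h2) (Tm.var 0)).1 N k (cons P (cons O (cons O2 fun _ => P)))
    (((show In N (fun _ => P) from fun _ => hP).cons hO2).cons hO |>.cons hP)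

/-- the conditions which are incompatible with all elements of `O` -/
theorem zx_inc (hBBa : T_BBa) {N : V → Prop} (k : ZFm N) {P O : V} (hP : N P) (hO : N O) :
    N (P.sep fun p => ∀ r ∈ P, Le r p → ∀ q ∈ O, q ∈ P → ¬ Le r q) := by
  have h1 : Dfb ZFm (fun _ v => ∀ r ∈ v 1, Le r (v 0) → ∀ q ∈ v 2, q ∈ v 1 → ¬ Le r q) := by
    refine (Dfb.ball (R := fun _ v => Le (v 0) (v 1) → ∀ q ∈ v 3, q ∈ v 2 → ¬ Le (v 0) q)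
      ktr_zfm (Tm.var 1) ((zx_le (hBBa := hBBa) (Tm.var 0) (Tm.var 1)).imp ?_)).congr
      fun M k v hv => Iff.rfl
    exact (Dfb.ball (R := fun _ v => v 0 ∈ v 3 → ¬ Le (v 1) (v 0)) ktr_zfm (Tm.var 3)
      ((Dfb.mem (Tm.var 0) (Tm.var 3)).imp
        (zx_le (hBBa := hBBa) (Tm.var 1) (Tm.var 0)).not)).congr fun M k v hv => Iff.rfl
  exact (Tm.sep h1 (Tm.var 0)).1 N k (cons P (cons O fun _ => P))
    (((show In N (fun _ => P) from fun _ => hP).cons hO).cons hP)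

theorem zx_alt (hBBa : T_BBa) {N : V → Prop} (k : ZFm N) {P O O' : V} (hP : N P) (hO : N O)
    (hO' : N O') :
    N (P.sep fun p => p ∈ O' ∨ ∃ q ∈ O, q ∈ P ∧ Le p q) := by
  have h1 : Dfb ZFm (fun _ v => ∃ q ∈ v 2, q ∈ v 1 ∧ Le (v 0) q) :=
    (Dfb.bex (R := fun _ v => v 0 ∈ v 2 ∧ Le (v 1) (v 0)) ktr_zfm (Tm.var 2)
      ((Dfb.mem (Tm.var 0) (Tm.var 2)).and (zx_le (hBBa := hBBa) (Tm.var 1) (Tm.var 0)))).congr
      fun M k v hv => Iff.rfl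
  have h2 : Dfb ZFm (fun _ v => v 0 ∈ v 3) := Dfb.mem (Tm.var 0) (Tm.var 3)
  exact (Tm.sep (h2.or h1) (Tm.var 0)).1 N k (cons P (cons O (cons O' fun _ => P)))
    (((show In N (fun _ => P) from fun _ => hP).cons hO').cons hO |>.cons hP)

end H94

open H94 in
theorem pf_ZX (hBBa : T_BBa) (hBJ : T_BJ) : T_ZX := by
  intro D hD ρ hρ hc X hX
  have kN : ZFm D.N := hD.zfc.toZFCm.toZFm
  obtain ⟨-, -, -, hPR, hJ⟩ := hBJ D hD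
  obtain ⟨-, hJG⟩ := hJ ρ hρ hc
  have hP := (hPR ρ hρ).1
  obtain ⟨O, hON, hO⟩ := hX
  refine ⟨?_, ?_, ?_⟩
  · refine ⟨_, zx_inc hBBa kN hP hON, fun G hG => ?_⟩
    obtain ⟨-, ⟨hGP, hG0, hup, hjn, -⟩, hgen⟩ := hJG G hG
    constructor
    · intro h
      obtain ⟨r, hr, hrE, -⟩ := hgen _ ∅ (zx_alt hBBa kN hP hON (zx_inc hBBa kN hP hON)) hG0 (by
        intro p hp _
        by_cases h1 : ∃ r ∈ D.P ρ, Le r p ∧ ∃ q ∈ O, q ∈ D.P ρ ∧ Le r q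
        · obtain ⟨r, hr, hrp, q, hq, hqP, hrq⟩ := h1
          exact ⟨r, ZFSet.mem_sep.2 ⟨hr, Or.inr ⟨q, hq, hqP, hrq⟩⟩, hr, hrp⟩
        · have h2 : ∀ r ∈ D.P ρ, Le r p → ∀ q ∈ O, q ∈ D.P ρ → ¬ Le r q :=
            fun r hr hrp q hq hqP hrq => h1 ⟨r, hr, hrp, q, hq, hqP, hrq⟩
          exact ⟨p, ZFSet.mem_sep.2 ⟨hp, Or.inl (ZFSet.mem_sep.2 ⟨hp, h2⟩)⟩, hp,
            fun i hi => ⟨hi, ⟨fun _ h => h, fun _ h => h, fun n h1 h2 => absurd h1 h2⟩⟩⟩)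
      rcases (ZFSet.mem_sep.1 hrE).2 with h1 | ⟨q, hq, hqP, hrq⟩
      · exact ⟨r, hr, h1⟩
      · exact absurd ((hO G hG).2 ⟨q, hup r hr q hqP hrq, hq⟩) h
    · rintro ⟨p, hp, hpO⟩ hXG
      obtain ⟨q, hq, hqO⟩ := (hO G hG).1 hXG
      obtain ⟨-, hj, hj1, hj2⟩ := hjn p hp q hq
      exact (ZFSet.mem_sep.1 hpO).2 _ (hGP hj) hj2 q hqO (hGP hq) hj1
  · rintro Y ⟨O2, hO2N, hO2⟩
    refine ⟨_, zx_bel hBBa kN hP hON hO2N, fun G hG => ?_⟩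
    obtain ⟨-, ⟨hGP, hG0, hup, hjn, -⟩, hgen⟩ := hJG G hG
    constructor
    · rintro ⟨h1, h2⟩
      obtain ⟨q, hq, hqO⟩ := (hO G hG).1 h1
      obtain ⟨q', hq', hqO'⟩ := (hO2 G hG).1 h2
      obtain ⟨-, hj, hj1, hj2⟩ := hjn q' hq' q hq
      exact ⟨_, hj, ZFSet.mem_sep.2 ⟨hGP hj, ⟨q, hqO, hGP hq, hj1⟩, ⟨q', hqO', hGP hq', hj2⟩⟩⟩
    · rintro ⟨p, hp, hpO⟩
      obtain ⟨-, ⟨q, hq, hqP, hle⟩, ⟨q', hq', hqP', hle'⟩⟩ := ZFSet.mem_sep.1 hpO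
      exact ⟨(hO G hG).2 ⟨q, hup p hp q hqP hle, hq⟩, (hO2 G hG).2 ⟨q', hup p hp q' hqP' hle', hq'⟩⟩
  · intro G hG hXG
    obtain ⟨p, hp, hpO⟩ := (hO G hG).1 hXG
    exact ⟨p, hp, fun G' hG' hp' => (hO G' hG').2 ⟨p, hp', hpO⟩⟩

end SE
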