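import Pool.Agent.H38.SE.TarZ

/-! Module ZY of the board `se_modules`: different labels have different generic reals; locality. -/

set_option linter.unusedVariables false

open Ordinal Order Set
open scoped ZFSet

namespace SE

open SF

theorem pf_ZY (hBA : T_BA) (hBBa : T_BBa) (hBK : T_BK) (hBL : T_BL) (hBP : T_BP) : T_ZY := by
  intro D hD ρ G hρ hc hG
  have kN : ZFm D.N := hD.zfc.toZFCm.toZFm
  obtain ⟨hT, hBA2, -⟩ := hBA.2.2.2.2.2.2 D.L ρ hc
  have h2 : ∀ k ∈ ρ, ∀ s, D.N s → s ⊆ ρ → Tr s → D.W (gs G s) (cg G k) → k ∈ s := by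
    intro k hk s hs hsρ hTs hW
    by_contra hks
    exact hBP D hD ρ G s k hρ hc hG hs hsρ hTs hk hks hW
  have hlN : ∀ k ∈ ρ, D.N (insert k (lS k)) := by
    intro k hk
    have hkN : D.N k := kN.trans ρ hρ k hk
    have h1 : Tm ZFm (fun _ v => insert (v 0) (lS (v 0))) :=
      Tm.ins (Tm.var 0) hBBa.2.2.2.2.1
    exact h1.1 D.N kN (fun _ => k) fun _ => hkN
  have key : ∀ k ∈ ρ, ∀ k' ∈ ρ, k' ∉ lS k → cg G k = cg G k' → k' = k := by
    intro k hk k' hk' hn he
    obtain ⟨hLab, hsi, hci, hci', hsi'⟩ := hBA2 k hk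
    have hTs : Tr (insert k (lS k)) := (hBA.2.2.2.2.2.2 D.L _ hci').1
    obtain ⟨-, hBL2⟩ := hBL D hD ρ G hρ hc hG
    obtain ⟨hGs, -⟩ := hBL2 _ (hlN k hk) hsi' hTs
    have hks : k ∈ insert k (lS k) := ZFSet.mem_insert k (lS k)
    have h3 := ((hBK D hD ρ G hρ hc hG).2 k hk).2.2.1 _ hTs hks
    have h4 := ((hBK D hD _ _ (hlN k hk) hci' hGs).2 k hks).2.1
    rw [h3, he] at h4
    have h5 := h2 k' hk' _ (hlN k hk) hsi' hTs h4
    rcases ZFSet.mem_insert_iff.1 h5 with h6 | h6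
    · exact h6
    · exact absurd h6 hn
  refine ⟨?_, h2, ?_⟩
  · intro k hk k' hk' he
    by_cases hn : k' ∈ lS k
    · have h3 : k ∉ lS k' := (hBA.2.1 D.L k (hBA2 k hk).1).2.2.2.2.2.2 k' hn
      exact key k' hk' k hk h3 he.symm
    · exact (key k hk k' hk' hn he).symm
  · intro k hk s hs hsρ hTs hks
    obtain ⟨-, hBL2⟩ := hBL D hD ρ G hρ hc hG
    have hgs := (hBL2 s hs hsρ hTs).2.2.2.2.2.2
    have h3 : gs (gs G s) (lS k) = gs G (lS k) := hgs _ (hTs k hks)
    have h4 : gs (gs G s) (insert k (lS k)) = gs G (insert k (lS k)) := by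
      refine hgs _ ?_
      intro x hx
      rcases ZFSet.mem_insert_iff.1 hx with h6 | h6
      · rw [h6]
        exact hks
      · exact hTs k hks h6
    constructor
    · unfold Cx.Unk
      rw [h3]
    · unfold Cx.Beta
      rw [h4]

end SE
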