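import Pool.Agent.H9.SE.TarK
import Pool.Agent.H7.SF.ReflS

/-! Module KA1 of the board `se_modules`: the well-founded part. -/

set_option linter.unusedVariables false

open Ordinal Order Set
open scoped ZFSet

namespace SE

open SF CAA

/-- `(D, g)` is a good pair for `t` with the value `α` -/
def ka1_GD (T E D g t α : V) : Prop := D ⊆ T ∧ t ∈ D ∧
  (∀ x ∈ T, ∀ y ∈ D, ZFSet.pair x y ∈ E → x ∈ D) ∧ Rkf D E g ∧ app g t = α

/-- the relation with the variables `α, t, T, E` -/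
def ka1_R (M : V → Prop) (v : ℕ → V) : Prop :=
  ∃ D, M D ∧ ∃ g, M g ∧ ka1_GD (v 2) (v 3) D g (v 1) (v 0)

theorem ka1_rkf : Dfb ZFm (fun _ v => Rkf (v 0) (v 1) (v 2)) := by
  have h3 : Dfb ZFm (fun _ v => ∀ x ∈ v 0, IsOrd (app (v 2) x)) :=
    (Dfb.ball (R := fun _ v => IsOrd (app (v 3) (v 0))) ktr_zfm (Tm.var 0)
      (Dfb.isOrd (Tm.app (Tm.var 3) (Tm.var 0)))).congr fun M k v hv => Iff.rfl
  have h4 : Dfb ZFm (fun _ v => ∀ x ∈ v 0, ∀ y ∈ v 0, ZFSet.pair x y ∈ v 1 →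
      app (v 2) x ∈ app (v 2) y) := by
    refine (Dfb.ball (R := fun _ v => ∀ y ∈ v 1, ZFSet.pair (v 0) y ∈ v 2 →
      app (v 3) (v 0) ∈ app (v 3) y) ktr_zfm (Tm.var 0) ?_).congr fun M k v hv => Iff.rfl
    exact (Dfb.ball (R := fun _ v => ZFSet.pair (v 1) (v 0) ∈ v 3 →
      app (v 4) (v 1) ∈ app (v 4) (v 0)) ktr_zfm (Tm.var 1)
      ((Dfb.pairMem (Tm.var 1) (Tm.var 0) (Tm.var 3)).imp
        (Dfb.mem (Tm.app (Tm.var 4) (Tm.var 1)) (Tm.app (Tm.var 4) (Tm.var 0))))).congr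
      fun M k v hv => Iff.rfl
  refine ((Dfb.svl (Tm.var 2)).and ((Dfb.eq (Tm.dm (Tm.var 2)) (Tm.var 0)).and
    (h3.and h4))).congr fun M k v hv => ?_
  exact ⟨fun h => ⟨h.1, h.2.1, h.2.2.1, h.2.2.2⟩, fun h => ⟨h.svl, h.dm, h.ord, h.lt⟩⟩

theorem ka1_dfb : Dfb ZFm ka1_R := by
  have h1 : Dfb ZFm (fun _ v => ∀ x ∈ v 4, ∀ y ∈ v 1, ZFSet.pair x y ∈ v 5 → x ∈ v 1) := by
    refine (Dfb.ball (R := fun _ v => ∀ y ∈ v 2, ZFSet.pair (v 0) y ∈ v 6 → v 0 ∈ v 2)
      ktr_zfm (Tm.var 4) ?_).congr fun M k v hv => Iff.rfl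
    exact (Dfb.ball (R := fun _ v => ZFSet.pair (v 1) (v 0) ∈ v 7 → v 1 ∈ v 3) ktr_zfm (Tm.var 2)
      ((Dfb.pairMem (Tm.var 1) (Tm.var 0) (Tm.var 7)).imp
        (Dfb.mem (Tm.var 1) (Tm.var 3)))).congr fun M k v hv => Iff.rfl
  have h2 : Dfb ZFm (fun _ v => Rkf (v 1) (v 5) (v 0)) :=
    Dfb.at3 (P := fun _ x y z => Rkf x y z) ka1_rkf (Tm.var 1) (Tm.var 5) (Tm.var 0)
  have h3 : Dfb ZFm (fun _ v => ka1_GD (v 4) (v 5) (v 1) (v 0) (v 3) (v 2)) :=
    (Dfb.subset (Tm.var 1) (Tm.var 4)).and ((Dfb.mem (Tm.var 3) (Tm.var 1)).and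
      (h1.and (h2.and (Dfb.eq (Tm.app (Tm.var 0) (Tm.var 3)) (Tm.var 2)))))
  exact h3.ex.ex.congr fun M k v hv => Iff.rfl

theorem t_ka1 : T_KA1 := by
  intro W k T E hT hE
  set w : V → ℕ → V := fun t => cons t (cons T (cons E fun _ => T)) with hw
  have hwI : ∀ t, W t → In W (w t) := fun t ht =>
    (((show In W (fun _ => T) from fun _ => hT).cons hE).cons hT).cons ht
  -- the good points
  set G : V := T.sep fun t => ∃ α, W α ∧ ka1_R W (cons α (w t)) with hG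
  have hGW : W G := by
    have h1 : Dfb ZFm (fun M v => ∃ α, M α ∧ ka1_R M (cons α v)) := ka1_dfb.ex
    exact (Tm.sep h1 (Tm.var 0)).1 W k (cons T (cons E fun _ => T))
      (((show In W (fun _ => T) from fun _ => hT).cons hE).cons hT)
  have hGT : G ⊆ T := fun t ht => (ZFSet.mem_sep.1 ht).1
  set f : V := resS G fun t => lea ka1_R W (w t) with hf
  have hfW : W f := by
    have h1 := (Tm.resS (Tm.var 0) ((Tm.lea ka1_dfb).rn fun i => match i with
      | 0 => 0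
      | i + 1 => i + 2)).1 W k (cons G (cons T (cons E fun _ => T)))
      ((((show In W (fun _ => T) from fun _ => hT).cons hE).cons hT).cons hGW)
    have e : ∀ t, (fun i => (cons t (cons G (cons T (cons E fun _ => T)))) (match i with
      | 0 => 0
      | i + 1 => i + 2)) = w t := by
      intro t
      funext i
      match i with
      | 0 => rfl
      | i + 1 => rfl
    simp only [e] at h1
    exact h1
  have hGD : ∀ {D g t}, W D → W g → ka1_GD T E D g t (app g t) → t ∈ G := by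
    intro D g t hD hg h
    have ht : t ∈ T := h.1 h.2.1
    exact ZFSet.mem_sep.2 ⟨ht, app g t, (Tm.app (Tm.var 0) (Tm.var 1)).1 W k
      (cons g (cons t fun _ => t)) (((show In W (fun _ => t) from fun _ => k.trans _ hT _ ht).cons
        (k.trans _ hT _ ht)).cons hg), D, hD, g, hg, h⟩
  -- the values
  have hval : ∀ t ∈ G, ∃ β : Ordinal.{0}, app f t = β.toZFSet ∧
      ∃ D, W D ∧ ∃ g, W g ∧ ka1_GD T E D g t β.toZFSet := by
    intro t ht
    obtain ⟨-, α, hα, hR⟩ := ZFSet.mem_sep.1 ht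
    obtain ⟨D, hD, g, hg, h⟩ := id hR
    obtain ⟨a, ha⟩ := h.2.2.2.1.ord t h.2.1
    have h5 : app g t = α := h.2.2.2.2
    rw [← h5, ha] at hR hα
    obtain ⟨β, -, h1, h2, h3⟩ := lea_spec (R := ka1_R) hα hR
    refine ⟨β, ?_, h3⟩
    rw [hf, app_resS ht]
    exact h1
  have hmin : ∀ {D g t} {γ : Ordinal.{0}}, W D → W g → ka1_GD T E D g t γ.toZFSet →
      ∀ β : Ordinal.{0}, app f t = β.toZFSet → β ≤ γ := by
    intro D g t γ hD hg h β hβ
    have h5 : app g t = γ.toZFSet := h.2.2.2.2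
    have htG : t ∈ G := hGD hD hg (by rw [h5]; exact h)
    have hγ : W γ.toZFSet := by
      rw [← h5]
      have ht : t ∈ T := h.1 h.2.1
      exact (Tm.app (Tm.var 0) (Tm.var 1)).1 W k
        (cons g (cons t fun _ => t)) (((show In W (fun _ => t) from fun _ => k.trans _ hT _ ht).cons
          (k.trans _ hT _ ht)).cons hg)
    obtain ⟨δ, hδ, h1, -, -⟩ := lea_spec (R := ka1_R) (v := w t) hγ ⟨D, hD, g, hg, h⟩
    rw [hf, app_resS htG] at hβ
    have h2 : β = δ := Ordinal.toZFSet_injective (hβ.symm.trans h1)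
    rw [h2]
    exact hδ
  have hdown : ∀ x ∈ T, ∀ y ∈ G, ZFSet.pair x y ∈ E → x ∈ G := by
    intro x hx y hy hxy
    obtain ⟨β, -, D, hD, g, hg, h⟩ := hval y hy
    exact hGD hD hg ⟨h.1, h.2.2.1 x hx y h.2.1 hxy, h.2.2.1, h.2.2.2.1, rfl⟩
  have hRk : Rkf G E f := by
    refine ⟨svl_resS _ _, dm_resS _ _, ?_, ?_⟩
    · intro x hx
      obtain ⟨β, h1, -⟩ := hval x hx
      exact ⟨β, h1⟩
    · intro x hx y hy hxy
      obtain ⟨β, h1, D, hD, g, hg, h⟩ := hval y hy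
      obtain ⟨α, h2, -⟩ := hval x hx
      have hxD : x ∈ D := h.2.2.1 x (hGT hx) y h.2.1 hxy
      obtain ⟨γ, hγ⟩ := h.2.2.2.1.ord x hxD
      have h3 : app g x ∈ app g y := h.2.2.2.1.lt x hxD y h.2.1 hxy
      rw [h.2.2.2.2, hγ, Ordinal.toZFSet_mem_toZFSet_iff] at h3
      have h4 : α ≤ γ := hmin hD hg ⟨h.1, hxD, h.2.2.1, h.2.2.2.1, hγ⟩ α h2
      rw [h1, h2, Ordinal.toZFSet_mem_toZFSet_iff]
      exact lt_of_le_of_lt h4 h3
  refine ⟨G, f, hGW, hfW, hGT, hRk, ?_⟩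
  intro t ht hpred
  by_contra htG
  set b : V := rkS (rg f) with hb
  have hbW : W b := (Tm.rkS (Tm.rg (Tm.var 0))).1 W k (fun _ => f) fun _ => hfW
  set g : V := resS (insert t G) fun x => sel (x = t) b (app f x) with hg
  have htW : W t := k.trans _ hT _ ht
  have hgW : W g := by
    have h1 : Tm ZFm (fun _ v => resS (insert (v 0) (v 1)) fun x => sel (x = v 0) (v 2)
        (app (v 3) x)) :=
      Tm.resS (Tm.ins (Tm.var 0) (Tm.var 1)) (Tm.sel (Dfb.eq (Tm.var 0) (Tm.var 1)) (Tm.var 3)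
        (Tm.app (Tm.var 4) (Tm.var 0)))
    exact h1.1 W k (cons t (cons G (cons b (cons f fun _ => T))))
      (((((show In W (fun _ => T) from fun _ => hT).cons hfW).cons hbW).cons hGW).cons htW)
  have hDW : W (insert t G) := (Tm.ins (Tm.var 0) (Tm.var 1)).1 W k (cons t (cons G fun _ => T))
    (((show In W (fun _ => T) from fun _ => hT).cons hGW).cons htW)
  have hgt : app g t = b := by
    rw [hg, app_resS (ZFSet.mem_insert t G), sel_pos rfl]
  have hgx : ∀ x ∈ G, app g x = app f x := by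
    intro x hx
    have hne : ¬ x = t := fun h => htG (h ▸ hx)
    rw [hg, app_resS (ZFSet.mem_insert_of_mem t hx), sel_neg hne]
  have hfb : ∀ x ∈ G, app f x ∈ b := by
    intro x hx
    obtain ⟨α, h2, -⟩ := hval x hx
    have h3 : app f x ∈ rg f := by
      rw [mem_rg]
      refine ⟨x, ?_⟩
      rw [hf, pair_mem_resS, app_resS hx]
      exact ⟨hx, rfl⟩
    have h4 := ZFSet.rank_lt_of_mem h3
    rw [h2] at h4
    rw [h2, hb]
    unfold rkS
    rw [Ordinal.toZFSet_mem_toZFSet_iff]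
    rwa [Ordinal.rank_toZFSet] at h4
  refine htG (hGD (D := insert t G) (g := g) hDW hgW ⟨?_, ZFSet.mem_insert t G, ?_, ?_, rfl⟩)
  · intro x hx
    rcases ZFSet.mem_insert_iff.1 hx with h | h
    · rw [h]
      exact ht
    · exact hGT h
  · intro x hx y hy hxy
    refine ZFSet.mem_insert_of_mem t ?_
    rcases ZFSet.mem_insert_iff.1 hy with h | h
    · rw [h] at hxy
      exact hpred x hx hxy
    · exact hdown x hx y h hxy
  · refine ⟨svl_resS _ _, dm_resS _ _, ?_, ?_⟩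
    · intro x hx
      rcases ZFSet.mem_insert_iff.1 hx with h | h
      · rw [h, hgt]
        exact ⟨_, rfl⟩
      · rw [hgx x h]
        exact hRk.ord x h
    · intro x hx y hy hxy
      have hxT : x ∈ T := by
        rcases ZFSet.mem_insert_iff.1 hx with h | h
        · rw [h]
          exact ht
        · exact hGT h
      rcases ZFSet.mem_insert_iff.1 hy with h | h
      · rw [h] at hxy ⊢
        have h1 := hpred x hxT hxy
        rw [hgt, hgx x h1]
        exact hfb x h1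
      · have h1 := hdown x hxT y h hxy
        rw [hgx x h1, hgx y h]
        exact hRk.lt x h1 y h hxy

end SE
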