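import Pool.Agent.H9.SE.TarK
import Pool.Agent.H7.SF.ReflS
import Pool.Agent.H7.SF.Iter

/-! Modules KA2, KA of the board `se_modules`: dependent choice, rank functions. -/

set_option linter.unusedVariables false

open Ordinal Order Set
open scoped ZFSet

namespace SE

open SF CAA

/-- variables `ξ, t, f, B, E` -/
def ka2_R (M : V → Prop) (v : ℕ → V) : Prop :=
  app (v 2) (v 0) ∈ v 3 ∧ ZFSet.pair (app (v 2) (v 0)) (v 1) ∈ v 4

theorem ka2_dfb : Dfb ZFm ka2_R :=
  (Dfb.mem (Tm.app (Tm.var 2) (Tm.var 0)) (Tm.var 3)).and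
    (Dfb.pairMem (Tm.app (Tm.var 2) (Tm.var 0)) (Tm.var 1) (Tm.var 4))

/-- the successor function, variables `t, f, B, E` -/
noncomputable def ka2_F (M : V → Prop) (v : ℕ → V) : V := app (v 1) (lea ka2_R M v)

theorem ka2_tm : Tm ZFm ka2_F := Tm.app (Tm.var 1) (Tm.lea ka2_dfb)

theorem t_ka2 : T_KA2 := by
  intro W kC B E hB hE hne hpred hno
  have k : ZFm W := kC.toZFm
  obtain ⟨α, f, hf, hon⟩ := kC.wo B hB
  have hα : W α.toZFSet := by
    have h1 : dm f = α.toZFSet := by
      ext x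
      rw [mem_dm]
      constructor
      · rintro ⟨y, hy⟩
        exact (ZFSet.pair_mem_prod.1 (hon.1.1 hy)).1
      · intro hx
        obtain ⟨y, hy, -⟩ := hon.1.2 x hx
        exact ⟨y, hy⟩
    rw [← h1]
    exact (Tm.dm (Tm.var 0)).1 W k (fun _ => f) fun _ => hf
  have hF : ∀ t ∈ B, ka2_F W (cons t (cons f (cons B fun _ => E))) ∈ B ∧
      ZFSet.pair (ka2_F W (cons t (cons f (cons B fun _ => E)))) t ∈ E := by
    intro t ht
    obtain ⟨x, hx, hxt⟩ := hpred t ht
    obtain ⟨a, ha, hax⟩ := hon.2 x hx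
    obtain ⟨ξ, hξ, rfl⟩ := Ordinal.mem_toZFSet_iff.1 ha
    have hξW : W ξ.toZFSet := k.trans _ hα _ ha
    have h1 : app f ξ.toZFSet = x := app_eq (svl_of_isFunc hon.1) hax
    have h2 : ka2_R W (cons ξ.toZFSet (cons t (cons f (cons B fun _ => E)))) := by
      show app f ξ.toZFSet ∈ B ∧ ZFSet.pair (app f ξ.toZFSet) t ∈ E
      rw [h1]
      exact ⟨hx, hxt⟩
    obtain ⟨β, -, h3, -, h4⟩ := lea_spec (R := ka2_R) hξW h2
    have h5 : ka2_F W (cons t (cons f (cons B fun _ => E))) = app f β.toZFSet := by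
      show app f (lea ka2_R W (cons t (cons f (cons B fun _ => E)))) = _
      rw [h3]
    rw [h5]
    exact h4
  obtain ⟨t0, ht0⟩ := ZFSet.nonempty_def _ |>.1 hne
  set v : ℕ → V := cons f (cons B (cons E fun _ => t0)) with hv
  -- `E` has the index 3 in the assignment of `ka2_F`
  have hvE : ∀ t, ka2_F W (cons t v) = ka2_F W (cons t (cons f (cons B fun _ => E))) := by
    intro t
    show app f (lea ka2_R W (cons t v)) =
      app f (lea ka2_R W (cons t (cons f (cons B fun _ => E))))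
    rfl
  set s : V := resS om fun x => it ka2_F (fun _ v => v 3) W v (nn x) with hs
  have hEW : W t0 := k.trans _ hB _ ht0
  have hsW : W s := by
    have h1 := (Tm.resS Tm.om (tm_it ka2_tm (Tm.var (K := ZFm) 3))).1 W k v
      ((((show In W (fun _ => t0) from fun _ => hEW).cons hE).cons hB).cons hf)
    exact h1
  have hit : ∀ n : ℕ, it ka2_F (fun _ v => v 3) W v n ∈ B := by
    intro n
    induction n with
    | zero => exact ht0
    | succ n ih =>
      show ka2_F W (cons (it ka2_F (fun _ v => v 3) W v n) v) ∈ B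
      rw [hvE]
      exact (hF _ ih).1
  have happ : ∀ n : ℕ, app s (nS n) = it ka2_F (fun _ v => v 3) W v n := by
    intro n
    rw [hs, app_resS (nS_mem_om n), nn_nS]
  refine hno ⟨s, hsW, ?_, ?_⟩
  · refine isFunc_resS _ _ _ fun x hx => ?_
    exact hit _
  · intro n
    rw [happ, happ]
    show ZFSet.pair (ka2_F W (cons (it ka2_F (fun _ v => v 3) W v n) v)) _ ∈ E
    rw [hvE]
    exact (hF _ (hit n)).2

theorem t_ka (hKA1 : T_KA1) (hKA2 : T_KA2) : T_KA := by
  intro W kC T E hT hE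
  have k : ZFm W := kC.toZFm
  constructor
  · intro hno
    obtain ⟨G, f, hG, hf, hGT, hRk, hcl⟩ := hKA1 W k T E hT hE
    have hTG : T ⊆ G := by
      by_contra hn
      have hex : ∃ t ∈ T, t ∉ G := by
        by_contra h
        refine hn fun t ht => ?_
        by_contra h1
        exact h ⟨t, ht, h1⟩
      set B : V := T.sep fun t => t ∉ G with hB
      have hBW : W B := (Tm.sep (R := fun _ v => v 0 ∉ v 2) (Dfb.mem (Tm.var 0) (Tm.var 2)).not
        (Tm.var 0)).1 W k (cons T (cons G fun _ => T))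
        (((show In W (fun _ => T) from fun _ => hT).cons hG).cons hT)
      obtain ⟨t, ht, htG⟩ := hex
      refine hKA2 W kC B E hBW hE ?_ ?_ ?_
      · exact (ZFSet.nonempty_def _).2 ⟨t, ZFSet.mem_sep.2 ⟨ht, htG⟩⟩
      · intro u hu
        obtain ⟨huT, huG⟩ := ZFSet.mem_sep.1 hu
        by_contra h
        refine huG (hcl u huT fun x hx hxu => ?_)
        by_contra hxG
        exact h ⟨x, ZFSet.mem_sep.2 ⟨hx, hxG⟩, hxu⟩
      · rintro ⟨s, hs, hsf, hsd⟩
        refine hno ⟨s, hs, ⟨fun z hz => ?_, hsf.2⟩, hsd⟩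
        obtain ⟨a, ha, b, hb, he⟩ := ZFSet.mem_prod.1 (hsf.1 hz)
        exact ZFSet.mem_prod.2 ⟨a, ha, b, (ZFSet.mem_sep.1 hb).1, he⟩
    have hGe : G = T := by
      ext x
      exact ⟨fun h => hGT h, fun h => hTG h⟩
    rw [hGe] at hRk
    exact ⟨f, hf, hRk⟩
  · rintro ⟨f, hf, hRk⟩ ⟨s, hs, hsf, hsd⟩
    have hsT : ∀ n : ℕ, app s (nS n) ∈ T := fun n => app_mem hsf (mem_om.2 ⟨n, rfl⟩)
    have hlt : ∀ n : ℕ, (app f (app s (nS (n + 1)))).rank < (app f (app s (nS n))).rank :=
      fun n => ZFSet.rank_lt_of_mem (hRk.lt _ (hsT _) _ (hsT _) (hsd n))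
    have key : ∀ a : Ordinal.{0}, ∀ n : ℕ, (app f (app s (nS n))).rank = a → False := by
      intro a
      induction a using WellFoundedLT.induction with
      | ind a ih =>
        intro n hn
        exact ih _ (hn ▸ hlt n) (n + 1) rfl
    exact key _ 0 rfl

end SE
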